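import Pool.Agent.N600.G3.Stm

/-!
# Task GEO of project G3 (helper600): lines along a shortest word
-/

set_option autoImplicit false

namespace Pool.Agent.N918.G3

open Pool.Agent.N600.G3
open scoped Pointwise

universe u

section words

variable {G : Type u} [Group G]

lemma hh_congr {s s' : ℕ → G} {n : ℕ} (h : ∀ i < n, s i = s' i) : hh s n = hh s' n := by
  induction n with
  | zero => rfl
  | succ n ih =>
    show hh s n * s n = hh s' n * s' n
    rw [ih (fun i hi => h i (by omega)), h n (by omega)]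

lemma exists_letters (T : Set G) (h1 : (1 : G) ∈ T) (n : ℕ) (w : G) (hw : w ∈ T ^ n) :
    ∃ s : ℕ → G, (∀ i, s i ∈ T) ∧ hh s n = w := by
  induction n generalizing w with
  | zero =>
    refine ⟨fun _ => 1, fun _ => h1, ?_⟩
    rw [pow_zero, Set.mem_one] at hw
    rw [hw]; rfl
  | succ n ih =>
    rw [pow_succ] at hw
    obtain ⟨w', hw', t, ht, rfl⟩ := Set.mem_mul.1 hw
    obtain ⟨s, hs, hsw⟩ := ih w' hw'
    refine ⟨fun i => if i < n then s i else t, fun i => ?_, ?_⟩
    · dsimp only
      split_ifs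
      · exact hs i
      · exact ht
    · show hh (fun i => if i < n then s i else t) n * (if n < n then s n else t) = w' * t
      rw [if_neg (lt_irrefl n), hh_congr (s' := s), hsw]
      intro i hi
      rw [if_pos hi]

lemma hh_seg {T : Set G} {s : ℕ → G} (hs : ∀ i, s i ∈ T) (i n : ℕ) :
    (hh s i)⁻¹ * hh s (i + n) ∈ T ^ n := by
  induction n with
  | zero => simp
  | succ n ih =>
    have : (hh s i)⁻¹ * hh s (i + (n + 1)) = ((hh s i)⁻¹ * hh s (i + n)) * s (i + n) := by
      show (hh s i)⁻¹ * (hh s (i + n) * s (i + n)) = _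
      rw [mul_assoc]
    rw [this, pow_succ]
    exact Set.mul_mem_mul ih (hs _)

lemma inv_mem_pow {T : Set G} (hT : T⁻¹ = T) {n : ℕ} {w : G} (hw : w ∈ T ^ n) :
    w⁻¹ ∈ T ^ n := by
  have : (T ^ n)⁻¹ = T ^ n := by rw [← inv_pow, hT]
  rw [← this]
  exact Set.inv_mem_inv.2 hw

lemma hh_mem {T : Set G} {s : ℕ → G} (hs : ∀ i, s i ∈ T) (n : ℕ) : hh s n ∈ T ^ n := by
  have h := hh_seg hs 0 n
  rw [zero_add] at h
  simpa [hh] using h

lemma hh_period {s : ℕ → G} {D : ℕ} (hs : ∀ i, s (D + i) = s i) (k : ℕ) :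
    hh s (D + k) = hh s D * hh s k := by
  induction k with
  | zero => simp [hh]
  | succ k ih =>
    show hh s (D + k) * s (D + k) = hh s D * (hh s k * s k)
    rw [ih, hs, mul_assoc]

lemma exists_pow {T : Set G} (hT : T⁻¹ = T) (hcl : Subgroup.closure T = ⊤) (g : G) :
    ∃ n : ℕ, g ∈ T ^ n := by
  have hg : g ∈ Subgroup.closure T := by rw [hcl]; trivial
  induction hg using Subgroup.closure_induction with
  | mem x hx => exact ⟨1, by simpa using hx⟩
  | one => exact ⟨0, by simp⟩
  | mul x y _ _ hx hy =>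
    obtain ⟨n, hn⟩ := hx
    obtain ⟨m, hm⟩ := hy
    exact ⟨n + m, by rw [pow_add]; exact Set.mul_mem_mul hn hm⟩
  | inv x _ hx =>
    obtain ⟨n, hn⟩ := hx
    exact ⟨n, inv_mem_pow hT hn⟩

/-- the derived subgroup is the normal closure of the commutators of the generators -/
lemma commutator_le_normalClosure {T : Set G} (hcl : Subgroup.closure T = ⊤) :
    commutator G ≤ Subgroup.normalClosure (CT T) := by
  set N := Subgroup.normalClosure (CT T) with hN
  have hTT : ∀ s ∈ T, ∀ t ∈ T, Commute (QuotientGroup.mk s : G ⧸ N) (QuotientGroup.mk t) := by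
    intro s hs t ht
    have h1 : s * t * s⁻¹ * t⁻¹ ∈ N := Subgroup.subset_normalClosure ⟨s, hs, t, ht, rfl⟩
    have h2 : (QuotientGroup.mk (s * t * s⁻¹ * t⁻¹) : G ⧸ N) = 1 :=
      (QuotientGroup.eq_one_iff _).2 h1
    have h3 : (QuotientGroup.mk s : G ⧸ N) * QuotientGroup.mk t * (QuotientGroup.mk s)⁻¹ *
        (QuotientGroup.mk t)⁻¹ = 1 := h2
    show (QuotientGroup.mk s : G ⧸ N) * QuotientGroup.mk t =
      QuotientGroup.mk t * QuotientGroup.mk s
    have h4 := mul_inv_eq_one.1 h3
    have h5 := mul_inv_eq_iff_eq_mul.1 h4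
    exact h5
  have hTG : ∀ s ∈ T, ∀ g : G, Commute (QuotientGroup.mk s : G ⧸ N) (QuotientGroup.mk g) := by
    intro s hs g
    have hg : g ∈ Subgroup.closure T := by rw [hcl]; trivial
    induction hg using Subgroup.closure_induction with
    | mem x hx => exact hTT s hs x hx
    | one => exact Commute.one_right _
    | mul x y _ _ hx hy => exact Commute.mul_right hx hy
    | inv x _ hx => exact Commute.inv_right hx
  have hGG : ∀ g' g : G, Commute (QuotientGroup.mk g' : G ⧸ N) (QuotientGroup.mk g) := by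
    intro g' g
    have hg : g' ∈ Subgroup.closure T := by rw [hcl]; trivial
    induction hg using Subgroup.closure_induction with
    | mem x hx => exact hTG x hx g
    | one => exact Commute.one_left _
    | mul x y _ _ hx hy => exact Commute.mul_left hx hy
    | inv x _ hx => exact Commute.inv_left hx
  rw [commutator_def, Subgroup.commutator_le]
  intro g _ g' _
  have h := hGG g g'
  have h2 : (QuotientGroup.mk (g * g' * g⁻¹ * g'⁻¹) : G ⧸ N) = 1 := by
    show (QuotientGroup.mk g : G ⧸ N) * QuotientGroup.mk g' * (QuotientGroup.mk g)⁻¹ *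
        (QuotientGroup.mk g')⁻¹ = 1
    rw [h.eq]
    group
  exact (QuotientGroup.eq_one_iff _).1 h2

end words

section crossed

variable {M : Type u} [Group M] {F : Type u} [Field F] {χ : M →* Fˣ} {b : M → F}

lemma crossed_one (hb : Crossed χ b) : b 1 = 0 := by
  have h := hb 1 1
  simp only [mul_one, map_one, Units.val_one, one_mul] at h
  exact (left_eq_add.1 h)

lemma crossed_mul_zero (hb : Crossed χ b) {x y : M} (hx : b x = 0) (hy : b y = 0) :
    b (x * y) = 0 := by
  rw [hb, hx, hy, mul_zero, add_zero]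

lemma crossed_inv_zero (hb : Crossed χ b) {x : M} (hx : b x = 0) : b x⁻¹ = 0 := by
  have h := hb x x⁻¹
  rw [mul_inv_cancel, crossed_one hb, hx, zero_add] at h
  exact (mul_eq_zero.1 h.symm).resolve_left (Units.ne_zero _)

lemma crossed_conj_ne (hb : Crossed χ b) {q x : M} (hq : b q = 0) (hx : b x ≠ 0) :
    b (q * x * q⁻¹) ≠ 0 := by
  rw [hb, hb, hq, crossed_inv_zero hb hq, mul_zero, add_zero, zero_add]
  exact mul_ne_zero (Units.ne_zero _) hx

/-- the subgroup of zeros of a crossed homomorphism -/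
def zeroSub (hb : Crossed χ b) : Subgroup M where
  carrier := {m | b m = 0}
  mul_mem' := fun hx hy => crossed_mul_zero hb hx hy
  one_mem' := crossed_one hb
  inv_mem' := fun hx => crossed_inv_zero hb hx

end crossed

lemma cj_coe {G : Type u} [Group G] (g : G) (m : commutator G) :
    ((cj g m : commutator G) : G) = g * m * g⁻¹ := by
  simp [cj]

/-- the commutator as an element of the derived subgroup -/
def cm {G : Type u} [Group G] (x y : G) : commutator G :=
  ⟨x * y * x⁻¹ * y⁻¹, by
    rw [commutator_def]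
    exact Subgroup.commutator_mem_commutator (Subgroup.mem_top x) (Subgroup.mem_top y)⟩

section main

variable {G : Type u} [Group G] {T : Set G} {F : Type u} [Field F]
  {χ : commutator G →* Fˣ} {b : commutator G → F}

lemma cm_right_zero (hb : Crossed χ b) {D : ℕ}
    (H : ∀ j < D, ∀ w ∈ T ^ j, ∀ d : commutator G, (d : G) ∈ CT T → b (cj w d) = 0)
    {a : G} (ha : a ∈ T) (r : ℕ) :
    ∀ (n : ℕ) (w h : G), w ∈ T ^ n → h ∈ T ^ r → n + 1 + r ≤ D + 1 →
      b (cj w (cm a h)) = 0 := by
  induction r with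
  | zero =>
    intro n w h _ hh0 _
    rw [pow_zero, Set.mem_one] at hh0
    have : cm a h = 1 := by
      apply Subtype.ext
      show a * h * a⁻¹ * h⁻¹ = 1
      rw [hh0]; group
    rw [this, map_one, crossed_one hb]
  | succ r ih =>
    intro n w h hw hh0 hn
    rw [pow_succ'] at hh0
    obtain ⟨t, ht, h', hh', rfl⟩ := Set.mem_mul.1 hh0
    have e : cj w (cm a (t * h')) = cj w (cm a t) * cj (w * t) (cm a h') := by
      apply Subtype.ext
      rw [Subgroup.coe_mul, cj_coe, cj_coe, cj_coe]
      show w * (a * (t * h') * a⁻¹ * (t * h')⁻¹) * w⁻¹ =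
        w * (a * t * a⁻¹ * t⁻¹) * w⁻¹ * (w * t * (a * h' * a⁻¹ * h'⁻¹) * (w * t)⁻¹)
      group
    rw [e]
    refine crossed_mul_zero hb (H n (by omega) w hw _ ⟨a, ha, t, ht, rfl⟩) ?_
    refine ih (n + 1) (w * t) h' ?_ hh' (by omega)
    rw [pow_succ]
    exact Set.mul_mem_mul hw ht

lemma cm_zero (hb : Crossed χ b) {D : ℕ}
    (H : ∀ j < D, ∀ w ∈ T ^ j, ∀ d : commutator G, (d : G) ∈ CT T → b (cj w d) = 0)
    (p : ℕ) :
    ∀ (r n : ℕ) (w u h : G), w ∈ T ^ n → u ∈ T ^ p → h ∈ T ^ r → n + p + r ≤ D + 1 →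
      b (cj w (cm u h)) = 0 := by
  induction p with
  | zero =>
    intro r n w u h _ hu _ _
    rw [pow_zero, Set.mem_one] at hu
    have : cm u h = 1 := by
      apply Subtype.ext
      show u * h * u⁻¹ * h⁻¹ = 1
      rw [hu]; group
    rw [this, map_one, crossed_one hb]
  | succ p ih =>
    intro r n w u h hw hu hh' hn
    rw [pow_succ'] at hu
    obtain ⟨a, ha, u', hu', rfl⟩ := Set.mem_mul.1 hu
    have e : cj w (cm (a * u') h) = cj (w * a) (cm u' h) * cj w (cm a h) := by
      apply Subtype.ext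
      rw [Subgroup.coe_mul, cj_coe, cj_coe, cj_coe]
      show w * (a * u' * h * (a * u')⁻¹ * h⁻¹) * w⁻¹ =
        w * a * (u' * h * u'⁻¹ * h⁻¹) * (w * a)⁻¹ * (w * (a * h * a⁻¹ * h⁻¹) * w⁻¹)
      group
    rw [e]
    refine crossed_mul_zero hb ?_ (cm_right_zero hb H ha r n w h hw hh' (by omega))
    refine ih r (n + 1) (w * a) u' h ?_ hu' hh' (by omega)
    rw [pow_succ]
    exact Set.mul_mem_mul hw ha

end main

theorem t_geo : S_GEO.{u} := by
  intro G _ T h1 hT hcl F _ χ b hb c hc hbc hne
  classical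
  -- existence of `D`
  have hex : ∃ n : ℕ, ∃ w ∈ T ^ n, ∃ d : commutator G, (d : G) ∈ CT T ∧ b (cj w d) ≠ 0 := by
    by_contra hcon
    push Not at hcon
    obtain ⟨m, hm⟩ := hne
    apply hm
    have hle : Subgroup.normalClosure (CT T) ≤ (zeroSub hb).map (commutator G).subtype := by
      rw [Subgroup.normalClosure, Subgroup.closure_le]
      intro x hx
      rw [Group.mem_conjugatesOfSet_iff] at hx
      obtain ⟨y, hy, hxy⟩ := hx
      obtain ⟨w, hw⟩ := isConj_iff.1 hxy
      obtain ⟨n, hn⟩ := exists_pow hT hcl w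
      obtain ⟨s, hs, t, ht, hst⟩ := hy
      have hy' : ((cm s t : commutator G) : G) = y := hst.symm
      refine ⟨cj w (cm s t), hcon n w hn (cm s t) ⟨s, hs, t, ht, rfl⟩, ?_⟩
      show ((cj w (cm s t) : commutator G) : G) = x
      rw [cj_coe, hy', hw]
    have hm2 := hle (commutator_le_normalClosure hcl m.2)
    obtain ⟨m', hm', he⟩ := hm2
    have : m' = m := Subtype.ext he
    rw [← this]
    exact hm'
  obtain ⟨w, hw, d, hd, hbd⟩ := Nat.find_spec hex
  set D := Nat.find hex with hD
  have H : ∀ j < D, ∀ w ∈ T ^ j, ∀ d : commutator G, (d : G) ∈ CT T → b (cj w d) = 0 := by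
    intro j hj w hw d hd
    by_contra hbd'
    exact Nat.find_min hex hj ⟨w, hw, d, hd, hbd'⟩
  rcases Nat.eq_zero_or_pos D with hD0 | hDpos
  · -- `D = 0`
    rw [hD0, pow_zero, Set.mem_one] at hw
    have hcj1 : ∀ m : commutator G, cj (1 : G) m = m := by
      intro m
      apply Subtype.ext
      rw [cj_coe]; group
    refine ⟨1, fun _ => 1, d, one_pos, fun _ => h1, hd, ?_, ?_, ?_⟩
    · intro i hi j hj
      obtain rfl : i = 0 := by omega
      obtain rfl : j = 0 := by omega
      rw [inv_mul_cancel, hcj1, hbc]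
    · intro k i hki hi
      omega
    · intro k hk
      obtain rfl : k = 0 := by omega
      have : (hh (fun _ => (1 : G)) 0)⁻¹ * hh (fun _ => (1 : G)) (1 + 0) = 1 := by
        simp [hh]
      rw [this, hcj1]
      rw [hw, hcj1] at hbd
      exact hbd
  · -- `D ≥ 1`
    obtain ⟨s0, hs0, hs0w⟩ := exists_letters T h1 D w hw
    let s : ℕ → G := fun i => s0 (i % D)
    have hsT : ∀ i, s i ∈ T := fun i => hs0 _
    have hper : ∀ i, s (D + i) = s i := by
      intro i
      show s0 ((D + i) % D) = s0 (i % D)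
      rw [Nat.add_mod_left]
    have hsD : hh s D = w := by
      rw [← hs0w]
      apply hh_congr
      intro i hi
      show s0 (i % D) = s0 i
      rw [Nat.mod_eq_of_lt hi]
    refine ⟨D, s, d, hDpos, hsT, hd, ?_, ?_, ?_⟩
    · intro i hi j hj
      rcases le_total i j with hij | hji
      · obtain ⟨n, rfl⟩ := Nat.exists_eq_add_of_le hij
        exact H n (by omega) _ (hh_seg hsT i n) c hc
      · obtain ⟨n, rfl⟩ := Nat.exists_eq_add_of_le hji
        have h := inv_mem_pow hT (hh_seg hsT j n)
        have e : ((hh s j)⁻¹ * hh s (j + n))⁻¹ = (hh s (j + n))⁻¹ * hh s j := by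
          group
        rw [e] at h
        exact H n (by omega) _ h c hc
    · intro k i hki hi
      have h := hh_seg hsT i (D + k - i)
      have e : i + (D + k - i) = D + k := by omega
      rw [e] at h
      exact H (D + k - i) (by omega) _ h d hd
    · intro k hk
      have hu : (hh s k)⁻¹ * hh s D ∈ T ^ (D - k) := by
        have h := hh_seg hsT k (D - k)
        have e : k + (D - k) = D := by omega
        rwa [e] at h
      have hhk : hh s k ∈ T ^ k := hh_mem hsT k
      set h := hh s k with hhdef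
      set v := h⁻¹ * hh s D with hv
      have hq : b (cm v h) = 0 := by
        have := cm_zero hb H (D - k) k 0 1 v h (by simp) hu hhk (by omega)
        have e : cj (1 : G) (cm v h) = cm v h := by
          apply Subtype.ext
          rw [cj_coe]; group
        rwa [e] at this
      have e : cj (h⁻¹ * hh s (D + k)) d = cm v h * cj w d * (cm v h)⁻¹ := by
        apply Subtype.ext
        rw [Subgroup.coe_mul, Subgroup.coe_mul, Subgroup.coe_inv, cj_coe, cj_coe,
          hh_period hper, ← hhdef, hsD]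
        show h⁻¹ * (w * h) * (d : G) * (h⁻¹ * (w * h))⁻¹ =
          (v * h * v⁻¹ * h⁻¹) * (w * d * w⁻¹) * (v * h * v⁻¹ * h⁻¹)⁻¹
        rw [hv, hsD]
        group
      rw [e]
      exact crossed_conj_ne hb hq hbd

end Pool.Agent.N918.G3
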